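import Pool.Agent.Helper99.BQ.Defs
import Pool.Agent.Helper99.BQ.Basic

/-!
MP_986e36_gt, block R3: lower bound for the distance from a point to points near a geodesic.
-/

open scoped Manifold ContDiff Quaternion ENNReal Topology
open Bundle Set Metric

noncomputable section

namespace Helper99.BQ

namespace R3aux

lemma tw_expand (s t : ℝ) (z : ℍ[ℝ]) :
    tw s t z = (Real.cos s * Real.cos t) • z + (Real.sin s * Real.cos t) • (qi * z) -
      (Real.cos s * Real.sin t) • (z * qi) - (Real.sin s * Real.sin t) • (qi * z * qi) := by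
  ext <;> simp [tw, cis, qi] <;> ring

lemma inner_qi_mul_self (v : ℍ[ℝ]) : inner ℝ (qi * v) v = (0 : ℝ) := by
  rw [Quaternion.inner_def]
  simp [qi]
  ring

lemma inner_mul_qi_self (v : ℍ[ℝ]) : inner ℝ (v * qi) v = (0 : ℝ) := by
  rw [Quaternion.inner_def]
  simp [qi]
  ring

lemma norm_qi : ‖qi‖ = 1 := by
  have h : ‖qi‖ ^ 2 = 1 := by
    rw [← real_inner_self_eq_norm_sq, Quaternion.inner_def]
    simp [qi]
  nlinarith [norm_nonneg qi]

lemma abs_sin_sub (x : ℝ) : |Real.sin x - x| ≤ 2 * x ^ 2 := by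
  rcases le_or_gt (|x|) 1 with h | h
  · have h1 := Real.sin_bound h
    have h2 : |Real.sin x - x| ≤ |Real.sin x - (x - x ^ 3 / 6)| + |x ^ 3 / 6| := by
      have : Real.sin x - x = (Real.sin x - (x - x ^ 3 / 6)) + (-(x ^ 3 / 6)) := by ring
      rw [this]
      refine (abs_add_le _ _).trans ?_
      rw [abs_neg]
    have h3 : |x ^ 3 / 6| = |x| ^ 3 / 6 := by
      rw [abs_div, abs_pow]; norm_num
    have h4 : x ^ 2 = |x| ^ 2 := (sq_abs x).symm
    have h5 : |x| ^ 3 ≤ |x| ^ 2 := pow_le_pow_of_le_one (abs_nonneg _) h (by norm_num)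
    have h6 : |x| ^ 5 ≤ |x| ^ 2 := pow_le_pow_of_le_one (abs_nonneg _) h (by norm_num)
    have h7 : 0 ≤ |x| ^ 2 := by positivity
    rw [h4]
    rw [h3] at h2
    linarith
  · have h1 : |Real.sin x - x| ≤ |Real.sin x| + |x| := abs_sub _ _
    have h2 : |Real.sin x| ≤ |x| := Real.abs_sin_le_abs
    have h4 : x ^ 2 = |x| ^ 2 := (sq_abs x).symm
    rw [h4]
    nlinarith

lemma abs_one_sub_cos (x : ℝ) : |1 - Real.cos x| ≤ x ^ 2 / 2 := by
  rw [abs_of_nonneg (by linarith [Real.cos_le_one x])]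
  linarith [Real.one_sub_sq_div_two_le_cos (x := x)]

lemma abs_one_sub_cos_mul (x y : ℝ) : |1 - Real.cos x * Real.cos y| ≤ (x ^ 2 + y ^ 2) / 2 := by
  have h : 1 - Real.cos x * Real.cos y = (1 - Real.cos x) + Real.cos x * (1 - Real.cos y) := by ring
  rw [h]
  refine (abs_add_le _ _).trans ?_
  rw [abs_mul]
  have h1 := abs_one_sub_cos x
  have h2 := abs_one_sub_cos y
  have h3 : |Real.cos x| * |1 - Real.cos y| ≤ 1 * |1 - Real.cos y| :=
    mul_le_mul_of_nonneg_right (Real.abs_cos_le_one x) (abs_nonneg _)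
  linarith

/-- first order expansion of the inner product with `v` -/
lemma expansion {x v : ℍ[ℝ]} (hx : ‖x‖ = 1) (hv : ‖v‖ = 1) (hxv : inner ℝ x v = (0 : ℝ))
    (s t θ : ℝ) :
    θ + s * inner ℝ v (qi * x) - t * inner ℝ v (x * qi) - 10 * (s ^ 2 + t ^ 2 + θ ^ 2) ≤
      inner ℝ v (tw s t (Real.cos θ • x + Real.sin θ • v)) := by
  have hqx : ‖qi * x‖ = 1 := by rw [norm_mul, norm_qi, hx, one_mul]
  have hxq : ‖x * qi‖ = 1 := by rw [norm_mul, norm_qi, hx, one_mul]
  have hqxq : ‖qi * x * qi‖ = 1 := by rw [norm_mul, norm_mul, norm_qi, hx]; norm_num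
  have hqvq : ‖qi * v * qi‖ = 1 := by rw [norm_mul, norm_mul, norm_qi, hv]; norm_num
  have A := abs_real_inner_le_norm v (qi * x)
  have B := abs_real_inner_le_norm v (x * qi)
  have C := abs_real_inner_le_norm v (qi * x * qi)
  have D := abs_real_inner_le_norm v (qi * v * qi)
  rw [hv, hqx, one_mul] at A
  rw [hv, hxq, one_mul] at B
  rw [hv, hqxq, one_mul] at C
  rw [hv, hqvq, one_mul] at D
  set α : ℝ := inner ℝ v (qi * x) with hα
  set β : ℝ := inner ℝ v (x * qi) with hβ
  set γ : ℝ := inner ℝ v (qi * x * qi) with hγ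
  set ρ : ℝ := inner ℝ v (qi * v * qi) with hρ
  have e : inner ℝ v (tw s t (Real.cos θ • x + Real.sin θ • v)) =
      Real.cos s * Real.cos t * Real.sin θ + Real.sin s * Real.cos t * (Real.cos θ * α) -
      Real.cos s * Real.sin t * (Real.cos θ * β) -
      Real.sin s * Real.sin t * (Real.cos θ * γ + Real.sin θ * ρ) := by
    rw [tw_expand]
    simp only [mul_add, add_mul, mul_smul_comm, smul_mul_assoc, inner_add_right, inner_sub_right,
      inner_smul_right]
    have h1 : inner ℝ v x = (0 : ℝ) := by rw [real_inner_comm]; exact hxv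
    have h2 : inner ℝ v v = (1 : ℝ) := by rw [real_inner_self_eq_norm_sq, hv]; norm_num
    have h3 : inner ℝ v (qi * v) = (0 : ℝ) := by rw [real_inner_comm]; exact inner_qi_mul_self v
    have h4 : inner ℝ v (v * qi) = (0 : ℝ) := by rw [real_inner_comm]; exact inner_mul_qi_self v
    rw [h1, h2, h3, h4, ← hα, ← hβ, ← hγ, ← hρ]
    ring
  rw [e]
  -- the four error terms
  have s1 : |Real.cos s * Real.cos t * Real.sin θ - θ| ≤ 2 * θ ^ 2 + (s ^ 2 + t ^ 2) / 2 := by
    have h : Real.cos s * Real.cos t * Real.sin θ - θ =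
        (Real.sin θ - θ) - Real.sin θ * (1 - Real.cos s * Real.cos t) := by ring
    rw [h]
    refine (abs_sub _ _).trans ?_
    rw [abs_mul]
    have h1 := abs_sin_sub θ
    have h2 := abs_one_sub_cos_mul s t
    have h3 : |Real.sin θ| * |1 - Real.cos s * Real.cos t| ≤ 1 * |1 - Real.cos s * Real.cos t| :=
      mul_le_mul_of_nonneg_right (Real.abs_sin_le_one θ) (abs_nonneg _)
    linarith
  have s2 : |Real.sin s * Real.cos t * Real.cos θ - s| ≤ 2 * s ^ 2 + (t ^ 2 + θ ^ 2) / 2 := by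
    have h : Real.sin s * Real.cos t * Real.cos θ - s =
        (Real.sin s - s) - Real.sin s * (1 - Real.cos t * Real.cos θ) := by ring
    rw [h]
    refine (abs_sub _ _).trans ?_
    rw [abs_mul]
    have h1 := abs_sin_sub s
    have h2 := abs_one_sub_cos_mul t θ
    have h3 : |Real.sin s| * |1 - Real.cos t * Real.cos θ| ≤ 1 * |1 - Real.cos t * Real.cos θ| :=
      mul_le_mul_of_nonneg_right (Real.abs_sin_le_one s) (abs_nonneg _)
    linarith
  have s3 : |Real.cos s * Real.sin t * Real.cos θ - t| ≤ 2 * t ^ 2 + (s ^ 2 + θ ^ 2) / 2 := by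
    have h : Real.cos s * Real.sin t * Real.cos θ - t =
        (Real.sin t - t) - Real.sin t * (1 - Real.cos s * Real.cos θ) := by ring
    rw [h]
    refine (abs_sub _ _).trans ?_
    rw [abs_mul]
    have h1 := abs_sin_sub t
    have h2 := abs_one_sub_cos_mul s θ
    have h3 : |Real.sin t| * |1 - Real.cos s * Real.cos θ| ≤ 1 * |1 - Real.cos s * Real.cos θ| :=
      mul_le_mul_of_nonneg_right (Real.abs_sin_le_one t) (abs_nonneg _)
    linarith
  have s4 : |Real.sin s * Real.sin t * (Real.cos θ * γ + Real.sin θ * ρ)| ≤ s ^ 2 + t ^ 2 := by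
    rw [abs_mul, abs_mul]
    have h1 : |Real.cos θ * γ + Real.sin θ * ρ| ≤ 2 := by
      refine (abs_add_le _ _).trans ?_
      rw [abs_mul, abs_mul]
      have h2 : |Real.cos θ| * |γ| ≤ 1 * 1 :=
        mul_le_mul (Real.abs_cos_le_one θ) C (abs_nonneg _) (by norm_num)
      have h3 : |Real.sin θ| * |ρ| ≤ 1 * 1 :=
        mul_le_mul (Real.abs_sin_le_one θ) D (abs_nonneg _) (by norm_num)
      linarith
    have h2 : |Real.sin s| * |Real.sin t| ≤ |s| * |t| :=
      mul_le_mul Real.abs_sin_le_abs Real.abs_sin_le_abs (abs_nonneg _) (abs_nonneg _)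
    have h3 : |Real.sin s| * |Real.sin t| * |Real.cos θ * γ + Real.sin θ * ρ| ≤
        |s| * |t| * 2 := mul_le_mul h2 h1 (abs_nonneg _) (by positivity)
    have h4 : |s| ^ 2 = s ^ 2 := sq_abs s
    have h5 : |t| ^ 2 = t ^ 2 := sq_abs t
    nlinarith [sq_nonneg (|s| - |t|)]
  have t2 : |(Real.sin s * Real.cos t * Real.cos θ - s) * α| ≤ 2 * s ^ 2 + (t ^ 2 + θ ^ 2) / 2 := by
    rw [abs_mul]
    calc _ ≤ (2 * s ^ 2 + (t ^ 2 + θ ^ 2) / 2) * 1 :=
          mul_le_mul s2 A (abs_nonneg _) (by positivity)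
      _ = _ := mul_one _
  have t3 : |(Real.cos s * Real.sin t * Real.cos θ - t) * β| ≤ 2 * t ^ 2 + (s ^ 2 + θ ^ 2) / 2 := by
    rw [abs_mul]
    calc _ ≤ (2 * t ^ 2 + (s ^ 2 + θ ^ 2) / 2) * 1 :=
          mul_le_mul s3 B (abs_nonneg _) (by positivity)
      _ = _ := mul_one _
  have u1 := (abs_le.mp s1).1
  have u2 := (abs_le.mp t2).1
  have u3 := (abs_le.mp t3).2
  have u4 := (abs_le.mp s4).2
  nlinarith [sq_nonneg s, sq_nonneg t, sq_nonneg θ]

lemma chord_le_angle {x y : ℍ[ℝ]} (hx : ‖x‖ = 1) (hy : ‖y‖ = 1) :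
    ‖y - x‖ ≤ InnerProductGeometry.angle x y := by
  have h1 : ‖y - x‖ ^ 2 = 2 - 2 * Real.cos (InnerProductGeometry.angle x y) := by
    rw [norm_sub_sq_real, hx, hy, InnerProductGeometry.cos_angle, hx, hy, real_inner_comm]
    ring
  have h2 := Real.one_sub_sq_div_two_le_cos (x := InnerProductGeometry.angle x y)
  have h3 := InnerProductGeometry.angle_nonneg x y
  nlinarith [norm_nonneg (y - x)]

end R3aux

variable {a b : ℝ}

/-- R3 -/
theorem dR_lower (hab : |a| + |b| ≤ 1 / 2) {x v : ℍ[ℝ]} (hx : ‖x‖ = 1) (hv : ‖v‖ = 1)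
    (hxv : inner ℝ x v = 0) {N j : ℝ} (hN : 0 < N) (hNj : N ^ 2 + j ^ 2 = 1)
    (hj : j = N * inner ℝ v (killing a b x)) :
    ∃ C : ℝ, 0 ≤ C ∧ ∀ r h0 h1 h2 : ℝ, 0 < r → r ≤ 1 → |h0| ≤ r / 6 → |h1| ≤ r / 6 →
      |h2| ≤ r / 6 →
      r + (N * h0 + N * inner ℝ v (qi * x) * h1 - N * inner ℝ v (x * qi) * h2) - C * r ^ 2 ≤
        dR a b x (tw (r * (a * j) + h1) (r * (b * j) + h2)
          (Real.cos (r * N + h0) • x + Real.sin (r * N + h0) • v)) := by
  refine ⟨200, by norm_num, ?_⟩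
  intro r h0 h1 h2 hr0 hr1 hh0 hh1 hh2
  set y := tw (r * (a * j) + h1) (r * (b * j) + h2)
          (Real.cos (r * N + h0) • x + Real.sin (r * N + h0) • v) with hy
  have hN1 : N ≤ 1 := by nlinarith [sq_nonneg j]
  have hj1 : |j| ≤ 1 := by
    rw [← sq_le_one_iff_abs_le_one]
    nlinarith [sq_nonneg N]
  have hzn : ‖Real.cos (r * N + h0) • x + Real.sin (r * N + h0) • v‖ = 1 := by
    have h : ‖Real.cos (r * N + h0) • x + Real.sin (r * N + h0) • v‖ ^ 2 = 1 := by
      rw [norm_add_sq_real, norm_smul, norm_smul, hx, hv, inner_smul_left, inner_smul_right, hxv]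
      simp
    have h' := norm_nonneg (Real.cos (r * N + h0) • x + Real.sin (r * N + h0) • v)
    nlinarith
  have hA : |inner ℝ v (qi * x)| ≤ (1 : ℝ) := by
    have := abs_real_inner_le_norm v (qi * x)
    rw [norm_mul, R3aux.norm_qi, hx, hv] at this
    linarith
  have hB : |inner ℝ v (x * qi)| ≤ (1 : ℝ) := by
    have := abs_real_inner_le_norm v (x * qi)
    rw [norm_mul, R3aux.norm_qi, hx, hv] at this
    linarith
  set α : ℝ := inner ℝ v (qi * x) with hα
  set β : ℝ := inner ℝ v (x * qi) with hβ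
  have hm : N * h0 + N * α * h1 - N * β * h2 ≤ r / 2 := by
    have e1 : N * h0 ≤ r / 6 := by
      calc N * h0 ≤ |N * h0| := le_abs_self _
        _ = N * |h0| := by rw [abs_mul, abs_of_pos hN]
        _ ≤ 1 * (r / 6) := mul_le_mul hN1 hh0 (abs_nonneg _) (by norm_num)
        _ = r / 6 := one_mul _
    have e2 : N * α * h1 ≤ r / 6 := by
      calc N * α * h1 ≤ |N * α * h1| := le_abs_self _
        _ = N * |α| * |h1| := by rw [abs_mul, abs_mul, abs_of_pos hN]
        _ ≤ 1 * 1 * (r / 6) := mul_le_mul (mul_le_mul hN1 hA (abs_nonneg _) (by norm_num)) hh1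
              (abs_nonneg _) (by norm_num)
        _ = r / 6 := by ring
    have e3 : -(N * β * h2) ≤ r / 6 := by
      calc -(N * β * h2) ≤ |N * β * h2| := neg_le_abs _
        _ = N * |β| * |h2| := by rw [abs_mul, abs_mul, abs_of_pos hN]
        _ ≤ 1 * 1 * (r / 6) := mul_le_mul (mul_le_mul hN1 hB (abs_nonneg _) (by norm_num)) hh2
              (abs_nonneg _) (by norm_num)
        _ = r / 6 := by ring
    linarith
  unfold dR
  apply le_ciInf
  intro u
  rcases le_or_gt (2 * r) (|u|) with hu | hu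
  · -- large `u`
    have h1' : |u| ≤ Real.sqrt (InnerProductGeometry.angle x (tw (a * u) (b * u) y) ^ 2 + u ^ 2) := by
      apply Real.le_sqrt_of_sq_le
      rw [sq_abs]
      nlinarith [sq_nonneg (InnerProductGeometry.angle x (tw (a * u) (b * u) y))]
    nlinarith
  · -- small `u`
    set z := tw (a * u) (b * u) y with hz
    have hzeq : z = tw (a * (u + r * j) + h1) (b * (u + r * j) + h2)
        (Real.cos (r * N + h0) • x + Real.sin (r * N + h0) • v) := by
      rw [hz, hy, tw_tw]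
      congr 1 <;> ring
    have hzn' : ‖z‖ = 1 := by rw [hzeq, norm_tw]; exact hzn
    have hch := R3aux.chord_le_angle hx hzn'
    -- Cauchy-Schwarz
    have hcs : inner ℝ (z - x) v * N - j * u ≤
        Real.sqrt (InnerProductGeometry.angle x z ^ 2 + u ^ 2) := by
      apply Real.le_sqrt_of_sq_le
      have h1' : |inner ℝ (z - x) v| ≤ ‖z - x‖ := by
        have := abs_real_inner_le_norm (z - x) v
        rw [hv, mul_one] at this
        exact this
      have h2' : (inner ℝ (z - x) v : ℝ) ^ 2 ≤ InnerProductGeometry.angle x z ^ 2 := by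
        rw [← sq_abs]
        exact pow_le_pow_left₀ (abs_nonneg _) (h1'.trans hch) 2
      have h3' : ((inner ℝ (z - x) v : ℝ) * N - j * u) ^ 2 ≤
          ((inner ℝ (z - x) v : ℝ) ^ 2 + u ^ 2) * (N ^ 2 + j ^ 2) := by
        nlinarith [sq_nonneg ((inner ℝ (z - x) v : ℝ) * j + u * N)]
      rw [hNj, mul_one] at h3'
      linarith
    refine le_trans ?_ hcs
    have hexp := R3aux.expansion hx hv hxv (a * (u + r * j) + h1) (b * (u + r * j) + h2)
      (r * N + h0)
    rw [← hzeq, ← hα, ← hβ] at hexp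
    have hin : (inner ℝ (z - x) v : ℝ) = inner ℝ v z := by
      rw [inner_sub_left, hxv, sub_zero, real_inner_comm]
    rw [hin]
    have hkill : inner ℝ v (killing a b x) = a * α - b * β := by
      simp only [killing, inner_sub_right, inner_smul_right]
      rfl
    rw [hkill] at hj
    -- sizes
    have hu' : |u + r * j| ≤ 3 * r := by
      calc |u + r * j| ≤ |u| + |r * j| := abs_add_le _ _
        _ = |u| + r * |j| := by rw [abs_mul, abs_of_pos hr0]
        _ ≤ 2 * r + r * 1 := by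
            have := mul_le_mul_of_nonneg_left hj1 hr0.le
            linarith
        _ = 3 * r := by ring
    have ha1 : |a| ≤ 1 / 2 := by linarith [abs_nonneg b]
    have hb1 : |b| ≤ 1 / 2 := by linarith [abs_nonneg a]
    have q1 : |a * (u + r * j) + h1| ≤ 2 * r := by
      calc |a * (u + r * j) + h1| ≤ |a| * |u + r * j| + |h1| := by
            rw [← abs_mul]; exact abs_add_le _ _
        _ ≤ 1 / 2 * (3 * r) + r / 6 :=
            add_le_add (mul_le_mul ha1 hu' (abs_nonneg _) (by norm_num)) hh1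
        _ ≤ 2 * r := by linarith
    have q2 : |b * (u + r * j) + h2| ≤ 2 * r := by
      calc |b * (u + r * j) + h2| ≤ |b| * |u + r * j| + |h2| := by
            rw [← abs_mul]; exact abs_add_le _ _
        _ ≤ 1 / 2 * (3 * r) + r / 6 :=
            add_le_add (mul_le_mul hb1 hu' (abs_nonneg _) (by norm_num)) hh2
        _ ≤ 2 * r := by linarith
    have q3 : |r * N + h0| ≤ 2 * r := by
      calc |r * N + h0| ≤ |r * N| + |h0| := abs_add_le _ _
        _ = r * N + |h0| := by rw [abs_of_pos (mul_pos hr0 hN)]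
        _ ≤ r * 1 + r / 6 := add_le_add (mul_le_mul_of_nonneg_left hN1 hr0.le) hh0
        _ ≤ 2 * r := by linarith
    have p1 : (a * (u + r * j) + h1) ^ 2 ≤ 4 * r ^ 2 := by
      rw [← sq_abs]
      calc |a * (u + r * j) + h1| ^ 2 ≤ (2 * r) ^ 2 := pow_le_pow_left₀ (abs_nonneg _) q1 2
        _ = 4 * r ^ 2 := by ring
    have p2 : (b * (u + r * j) + h2) ^ 2 ≤ 4 * r ^ 2 := by
      rw [← sq_abs]
      calc |b * (u + r * j) + h2| ^ 2 ≤ (2 * r) ^ 2 := pow_le_pow_left₀ (abs_nonneg _) q2 2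
        _ = 4 * r ^ 2 := by ring
    have p3 : (r * N + h0) ^ 2 ≤ 4 * r ^ 2 := by
      rw [← sq_abs]
      calc |r * N + h0| ^ 2 ≤ (2 * r) ^ 2 := pow_le_pow_left₀ (abs_nonneg _) q3 2
        _ = 4 * r ^ 2 := by ring
    have hlow : r * N + h0 + (a * (u + r * j) + h1) * α - (b * (u + r * j) + h2) * β - 120 * r ^ 2
        ≤ (inner ℝ v z : ℝ) := by linarith
    have hlow2 := mul_le_mul_of_nonneg_right hlow hN.le
    have hjj : j = N * (a * α - b * β) := hj
    have hkey : (r * N + h0 + (a * (u + r * j) + h1) * α - (b * (u + r * j) + h2) * β -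
        120 * r ^ 2) * N - j * u = r * (N ^ 2 + j ^ 2) + (N * h0 + N * α * h1 - N * β * h2)
          - 120 * r ^ 2 * N + (u + r * j) * (N * (a * α - b * β) - j) := by ring
    rw [← hjj, sub_self, mul_zero, add_zero, hNj, mul_one] at hkey
    have hfin : 120 * r ^ 2 * N ≤ 200 * r ^ 2 := by
      have : 0 ≤ r ^ 2 := by positivity
      nlinarith
    linarith

end Helper99.BQ
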