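import Pool.Agent.Helper99.BQ.Defs
import Pool.Agent.Helper99.BQ.Basic
import Pool.Agent.Helper66.BQ.R12
import Pool.Agent.Helper78.BQ.R3

/-!
MP_986e36_gt, block R4: the family of geodesics, from R1, R2 (hypotheses here) and R3.
-/

open scoped Manifold ContDiff Quaternion ENNReal Topology
open Bundle Set Metric

noncomputable section

namespace Helper99.BQ

/-- statement of R1 -/
def StatR1 (a b : ℝ) : Prop := ∀ {x v : ℍ[ℝ]} (_ : ‖x‖ = 1) (_ : ‖v‖ = 1)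
    (_ : inner ℝ x v = (0 : ℝ)) {N j : ℝ} (_ : 0 < N) (_ : N ^ 2 + j ^ 2 = 1)
    (_ : j = N * inner ℝ v (killing a b x)) {t : ℝ} (_ : 0 ≤ t) (_ : t ≤ 1),
    dR a b x (tw (a * (j * t)) (b * (j * t)) (Real.cos (N * t) • x + Real.sin (N * t) • v)) = t

/-- statement of R2 -/
def StatR2 (a b : ℝ) : Prop := ∀ {x v : ℍ[ℝ]} (_ : ‖x‖ = 1) (_ : ‖v‖ = 1)
    (_ : inner ℝ x v = (0 : ℝ)) {N j : ℝ} (_ : 0 < N) (_ : N ^ 2 + j ^ 2 = 1)
    (_ : j = N * inner ℝ v (killing a b x)) {t : ℝ} (_ : 0 ≤ t) (_ : t ≤ 1)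
    {z : ℍ[ℝ]} (_ : ‖z‖ = 1) (_ : dR a b x z = t)
    (_ : dR a b z (tw (a * j) (b * j) (Real.cos N • x + Real.sin N • v)) = 1 - t),
    z = tw (a * (j * t)) (b * (j * t)) (Real.cos (N * t) • x + Real.sin (N * t) • v)

namespace R4aux

/-- the base point -/
def x0 : ℍ[ℝ] := ⟨1 / Real.sqrt 2, 0, 1 / Real.sqrt 2, 0⟩

/-- the third tangent vector -/
def e3 : ℍ[ℝ] := ⟨-(1 / Real.sqrt 2), 0, 1 / Real.sqrt 2, 0⟩

/-- `vs s` with prescribed coordinates -/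
def vv (s t c : ℝ) : ℍ[ℝ] := s • (qi * x0) + t • (x0 * qi) + c • e3

lemma sq2 : (1 / Real.sqrt 2) * (1 / Real.sqrt 2) = (1 : ℝ) / 2 := by
  rw [div_mul_div_comm, one_mul, Real.mul_self_sqrt (by norm_num)]

lemma norm_x0 : ‖x0‖ = 1 := by
  have h : ‖x0‖ ^ 2 = 1 := by
    rw [← real_inner_self_eq_norm_sq, Quaternion.inner_def]
    simp only [x0, Quaternion.re_mul, Quaternion.re_star, Quaternion.imI_star,
      Quaternion.imJ_star, Quaternion.imK_star]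
    nlinarith [sq2]
  nlinarith [norm_nonneg x0]

lemma inner_x0_vv (s t c : ℝ) : inner ℝ x0 (vv s t c) = (0 : ℝ) := by
  rw [Quaternion.inner_def]
  simp [vv, x0, e3, qi]

lemma norm_vv {s t c : ℝ} (h : s ^ 2 + t ^ 2 + c ^ 2 = 1) : ‖vv s t c‖ = 1 := by
  have h1 : ‖vv s t c‖ ^ 2 = 1 := by
    rw [← real_inner_self_eq_norm_sq, Quaternion.inner_def]
    have hs := sq2
    simp only [one_div] at hs
    simp [vv, x0, e3, qi]
    have : (Real.sqrt 2)⁻¹ ^ 2 = (1 : ℝ) / 2 := by rw [sq]; rw [hs]; norm_num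
    nlinarith
  nlinarith [norm_nonneg (vv s t c)]

lemma inner_vv_left (s t c : ℝ) : inner ℝ (vv s t c) (qi * x0) = s := by
  rw [Quaternion.inner_def]
  have hs := sq2
  simp only [one_div] at hs
  simp [vv, x0, e3, qi]
  have : (Real.sqrt 2)⁻¹ ^ 2 = (1 : ℝ) / 2 := by rw [sq]; rw [hs]; norm_num
  linear_combination (2 * s) * this

lemma inner_vv_right (s t c : ℝ) : inner ℝ (vv s t c) (x0 * qi) = t := by
  rw [Quaternion.inner_def]
  have hs := sq2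
  simp only [one_div] at hs
  simp [vv, x0, e3, qi]
  have : (Real.sqrt 2)⁻¹ ^ 2 = (1 : ℝ) / 2 := by rw [sq]; rw [hs]; norm_num
  linear_combination (2 * t) * this

/-- point of the great circle -/
def gc (v : ℍ[ℝ]) (θ : ℝ) : ℍ[ℝ] := Real.cos θ • x0 + Real.sin θ • v

lemma norm_comb {x v : ℍ[ℝ]} (hx : ‖x‖ = 1) (hv : ‖v‖ = 1) (hxv : inner ℝ x v = (0 : ℝ))
    (p q : ℝ) (h : p ^ 2 + q ^ 2 = 1) : ‖p • x + q • v‖ = 1 := by
  have h1 : ‖p • x + q • v‖ ^ 2 = 1 := by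
    rw [norm_add_sq_real, norm_smul, norm_smul, hx, hv, inner_smul_left, inner_smul_right, hxv]
    simp [h]
  nlinarith [norm_nonneg (p • x + q • v)]

lemma norm_gc {v : ℍ[ℝ]} (hv : ‖v‖ = 1) (hxv : inner ℝ x0 v = (0 : ℝ)) (θ : ℝ) :
    ‖gc v θ‖ = 1 := norm_comb norm_x0 hv hxv _ _ (Real.cos_sq_add_sin_sq θ)

lemma killing_sub' (a b : ℝ) (x y : ℍ[ℝ]) (p q : ℝ) :
    killing a b (p • x + q • y) = p • killing a b x + q • killing a b y := by
  rw [killing_add, killing_smul, killing_smul]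

/-- the inner product of the velocity with the Killing field is constant along the great circle -/
lemma inner_velocity (a b : ℝ) (v : ℍ[ℝ]) (θ : ℝ) :
    inner ℝ (-Real.sin θ • x0 + Real.cos θ • v) (killing a b (gc v θ)) =
      (inner ℝ v (killing a b x0) : ℝ) := by
  unfold gc
  rw [killing_sub']
  simp only [inner_add_left, inner_add_right, inner_smul_left, inner_smul_right, conj_trivial]
  rw [inner_killing_self, inner_killing_self]
  have h : (inner ℝ x0 (killing a b v) : ℝ) = - inner ℝ v (killing a b x0) := by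
    have := inner_killing (a := a) (b := b) x0 v
    rw [real_inner_comm] at this
    linarith
  rw [h]
  have h2 := Real.cos_sq_add_sin_sq θ
  linear_combination (inner ℝ v (killing a b x0) : ℝ) * h2

lemma gc_add (v : ℍ[ℝ]) (θ φ : ℝ) : gc v (θ + φ) =
    Real.cos φ • gc v θ + Real.sin φ • (-Real.sin θ • x0 + Real.cos θ • v) := by
  unfold gc
  rw [Real.cos_add, Real.sin_add]
  simp only [smul_add, smul_smul, sub_smul, add_smul]
  module

lemma tendsto_angle {T : Type*} [TopologicalSpace T] {g : T → ℍ[ℝ]} (hg : Continuous g)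
    (hg1 : ∀ t, ‖g t‖ = 1) (t₀ : T) :
    Filter.Tendsto (fun t => InnerProductGeometry.angle (g t) (g t₀)) (𝓝 t₀) (𝓝 0) := by
  have h1 : ∀ t, InnerProductGeometry.angle (g t) (g t₀) = Real.arccos (inner ℝ (g t) (g t₀)) := by
    intro t
    unfold InnerProductGeometry.angle
    rw [hg1, hg1, mul_one, div_one]
  have h2 : Continuous fun t => Real.arccos (inner ℝ (g t) (g t₀)) :=
    Real.continuous_arccos.comp (hg.inner continuous_const)
  have h3 := h2.tendsto t₀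
  have h4 : Real.arccos (inner ℝ (g t₀) (g t₀)) = 0 := by
    rw [real_inner_self_eq_norm_sq, hg1]
    simp
  rw [h4] at h3
  refine h3.congr fun t => (h1 t).symm


/-- point map -/
def Gm (V : ℍ[ℝ]) (τ : Fin 3 → ℝ) : ℍ[ℝ] := tw (τ 1) (τ 2) (gc V (τ 0))

lemma continuous_Gm (V : ℍ[ℝ]) : Continuous (Gm V) := by
  have h1 : Continuous fun τ : Fin 3 → ℝ => gc V (τ 0) := by
    unfold gc
    exact ((Real.continuous_cos.comp (continuous_apply 0)).smul continuous_const).add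
      ((Real.continuous_sin.comp (continuous_apply 0)).smul continuous_const)
  have h2 : Continuous fun τ : Fin 3 → ℝ => (τ 1, τ 2, gc V (τ 0)) :=
    (continuous_apply 1).prodMk ((continuous_apply 2).prodMk h1)
  have h4 : Gm V = (fun q : ℝ × ℝ × ℍ[ℝ] => tw q.1 q.2.1 q.2.2) ∘
      fun τ : Fin 3 → ℝ => (τ 1, τ 2, gc V (τ 0)) := by
    funext τ
    simp only [Gm, Function.comp_apply]
  rw [h4]
  exact Continuous.comp continuous_tw h2

/-- a family of velocity vectors -/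
structure VFam (a b s₀ : ℝ) where
  V : ℝ → ℍ[ℝ]
  one : ∀ s, ‖V s‖ = 1
  orth : ∀ s, inner ℝ x0 (V s) = (0 : ℝ)
  l : ∀ s ∈ Icc (0 : ℝ) s₀, inner ℝ (V s) (qi * x0) = s
  r : ∀ s ∈ Icc (0 : ℝ) s₀, inner ℝ (V s) (x0 * qi) = a * s / b - 1 / 2
  k : ∀ s, inner ℝ (V s) (killing a b x0) = b / 2

lemma exists_VFam {a b : ℝ} (ha : a ≠ 0) (hb : b ≠ 0) :
    ∃ s₀ : ℝ, 0 < s₀ ∧ Nonempty (VFam a b s₀) := by
  have ha0 : 0 < |a| := abs_pos.mpr ha
  have hb0 : 0 < |b| := abs_pos.mpr hb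
  obtain ⟨s₀, hs₀, hs₁⟩ : ∃ s₀ : ℝ, 0 < s₀ ∧ ∀ s ∈ Icc (0 : ℝ) s₀,
      s ^ 2 + (a * s / b - 1 / 2) ^ 2 ≤ 1 := by
    refine ⟨min (1 / 4) (|b| / (4 * |a|)), by positivity, ?_⟩
    intro s hs
    have h1 : s ≤ 1 / 4 := hs.2.trans (min_le_left _ _)
    have h2 : s ≤ |b| / (4 * |a|) := hs.2.trans (min_le_right _ _)
    have h3 : |a * s / b| ≤ 1 / 4 := by
      rw [abs_div, abs_mul, abs_of_nonneg hs.1, div_le_iff₀ hb0]
      rw [le_div_iff₀ (by positivity)] at h2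
      linarith
    have h4 := abs_le.mp h3
    have h5 : s ^ 2 ≤ 1 / 16 := by nlinarith [hs.1]
    nlinarith [h4.1, h4.2]
  set pr : ℝ → ℝ := fun s => max 0 (min s s₀) with hpr
  have hprI : ∀ s, pr s ∈ Icc (0 : ℝ) s₀ := fun s =>
    ⟨le_max_left _ _, max_le hs₀.le (min_le_right _ _)⟩
  have hprs : ∀ s ∈ Icc (0 : ℝ) s₀, pr s = s := by
    intro s hs
    simp only [hpr]
    rw [min_eq_left hs.2, max_eq_right hs.1]
  have hV3 : ∀ s, inner ℝ (vv (pr s) (a * pr s / b - 1 / 2)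
    (Real.sqrt (1 - ((pr s) ^ 2 + (a * pr s / b - 1 / 2) ^ 2)))) (qi * x0) = pr s :=
    fun s => inner_vv_left _ _ _
  have hV4 : ∀ s, inner ℝ (vv (pr s) (a * pr s / b - 1 / 2)
    (Real.sqrt (1 - ((pr s) ^ 2 + (a * pr s / b - 1 / 2) ^ 2)))) (x0 * qi) =
      a * pr s / b - 1 / 2 := fun s => inner_vv_right _ _ _
  refine ⟨s₀, hs₀, ⟨{
    V := fun s => vv (pr s) (a * pr s / b - 1 / 2)
      (Real.sqrt (1 - ((pr s) ^ 2 + (a * pr s / b - 1 / 2) ^ 2)))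
    one := ?_
    orth := fun s => inner_x0_vv _ _ _
    l := ?_
    r := ?_
    k := ?_ }⟩⟩
  · intro s
    apply norm_vv
    rw [Real.sq_sqrt (by linarith [hs₁ (pr s) (hprI s)])]
    ring
  · intro s hs
    rw [hV3, hprs s hs]
  · intro s hs
    rw [hV4, hprs s hs]
  · intro s
    simp only [killing, inner_sub_right, inner_smul_right]
    rw [hV3, hV4]
    field_simp
    ring

section
variable {a b s₀ : ℝ} (D : VFam a b s₀)

lemma norm_Gm (s : ℝ) (τ : Fin 3 → ℝ) : ‖Gm (D.V s) τ‖ = 1 := by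
  unfold Gm
  rw [norm_tw, norm_gc (D.one s) (D.orth s)]

lemma mem_Gm (s : ℝ) (τ : Fin 3 → ℝ) : Gm (D.V s) τ ∈ sphere (0 : ℍ[ℝ]) 1 := by
  rw [mem_sphere_zero_iff_norm]; exact norm_Gm D s τ

/-- frequencies -/
def omg (a b N j : ℝ) : Fin 3 → ℝ := ![N, a * j, b * j]

lemma Gm_om (V : ℍ[ℝ]) (N j t : ℝ) : Gm V (t • omg a b N j) =
    tw (a * (j * t)) (b * (j * t)) (gc V (N * t)) := by
  simp only [Gm, omg, Pi.smul_apply, smul_eq_mul, Matrix.cons_val_one, Matrix.cons_val_zero,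
    Matrix.cons_val]
  congr 1
  · ring
  · ring
  · congr 1; ring

lemma Gm_dec (V : ℍ[ℝ]) (N j t₀ t : ℝ) : Gm V ((t₀ + t) • omg a b N j) =
    tw (a * (j * t₀)) (b * (j * t₀))
      (tw (a * (j * t)) (b * (j * t)) (Real.cos (N * t) • gc V (N * t₀) +
        Real.sin (N * t) • (-Real.sin (N * t₀) • x0 + Real.cos (N * t₀) • V))) := by
  rw [Gm_om, tw_tw, ← gc_add]
  congr 1
  · ring
  · ring
  · congr 1; ring

lemma norm_vel (s θ : ℝ) : ‖-Real.sin θ • x0 + Real.cos θ • D.V s‖ = 1 := by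
  apply norm_comb norm_x0 (D.one s) (D.orth s)
  have := Real.cos_sq_add_sin_sq θ
  linarith

lemma inner_gc_vel (s θ : ℝ) :
    inner ℝ (gc (D.V s) θ) (-Real.sin θ • x0 + Real.cos θ • D.V s) = (0 : ℝ) := by
  unfold gc
  simp only [inner_add_left, inner_add_right, inner_smul_left, inner_smul_right, conj_trivial]
  have h1 : inner ℝ (D.V s) x0 = (0 : ℝ) := by rw [real_inner_comm]; exact D.orth s
  rw [D.orth s, h1, real_inner_self_eq_norm_sq, real_inner_self_eq_norm_sq, norm_x0, D.one]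
  ring

lemma j_eq {N j : ℝ} (hj : j = N * (b / 2)) (s θ : ℝ) :
    j = N * inner ℝ (-Real.sin θ • x0 + Real.cos θ • D.V s) (killing a b (gc (D.V s) θ)) := by
  rw [inner_velocity, D.k, hj]

variable {R : Type*} (f : R ≃ sphere (0 : ℍ[ℝ]) 1)

/-- the torus map -/
def Phm (s : ℝ) (τ : Fin 3 → ℝ) : R := f.symm ⟨Gm (D.V s) τ, mem_Gm D s τ⟩

lemma f_Phm (s : ℝ) (τ : Fin 3 → ℝ) : (f (Phm D f s τ) : ℍ[ℝ]) = Gm (D.V s) τ := by
  unfold Phm
  rw [Equiv.apply_symm_apply]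

lemma fld_zero (N j s : ℝ) (h : x0 ∈ sphere (0 : ℍ[ℝ]) 1) :
    Phm D f s ((0 : ℝ) • omg a b N j) = f.symm ⟨x0, h⟩ := by
  unfold Phm
  congr 1
  apply Subtype.ext
  simp only
  rw [Gm_om]
  simp only [mul_zero]
  rw [tw_zero]
  unfold gc
  simp

lemma fld_per (s : ℝ) (η : Fin 3 → ℝ) (k : Fin 3 → ℤ) :
    Phm D f s (fun i => η i + 2 * Real.pi * k i) = Phm D f s η := by
  unfold Phm
  congr 1
  apply Subtype.ext
  simp only [Gm]
  rw [tw_add_int]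
  congr 1
  unfold gc
  have h1 : η 0 + 2 * Real.pi * (k 0 : ℝ) = η 0 + (k 0 : ℝ) * (2 * Real.pi) := by ring
  rw [h1, Real.cos_add_int_mul_two_pi, Real.sin_add_int_mul_two_pi]

variable [MetricSpace R]
  (hf : ∀ x y : R, dist x y = dR a b (f x : ℍ[ℝ]) (f y : ℍ[ℝ]))
include hf

lemma fld_geo (hR1 : StatR1 a b) {N j : ℝ} (hN0 : 0 < N) (hNj : N ^ 2 + j ^ 2 = 1)
    (hj : j = N * (b / 2)) (s t₀ t : ℝ) (ht0 : 0 ≤ t) (ht1 : t ≤ 1) :
    dist (Phm D f s (t₀ • omg a b N j)) (Phm D f s ((t₀ + t) • omg a b N j)) = t := by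
  rw [hf, f_Phm, f_Phm, Gm_om, Gm_dec, dR_tw]
  exact hR1 (norm_gc (D.one s) (D.orth s) _) (norm_vel D s _) (inner_gc_vel D s _) hN0 hNj
    (j_eq D hj s _) ht0 ht1

lemma fld_uniq (hR2 : StatR2 a b) {N j : ℝ} (hN0 : 0 < N) (hNj : N ^ 2 + j ^ 2 = 1)
    (hj : j = N * (b / 2)) (s t₀ t : ℝ) (ht0 : 0 ≤ t) (ht1 : t ≤ 1) (z : R)
    (hz1 : dist (Phm D f s (t₀ • omg a b N j)) z = t)
    (hz2 : dist z (Phm D f s ((t₀ + 1) • omg a b N j)) = 1 - t) :
    z = Phm D f s ((t₀ + t) • omg a b N j) := by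
  rw [hf, f_Phm, Gm_om] at hz1
  rw [hf, f_Phm, Gm_dec] at hz2
  have hZn : ‖(f z : ℍ[ℝ])‖ = 1 := by
    have := (f z).2
    rw [mem_sphere_zero_iff_norm] at this
    exact this
  obtain ⟨Z', hZ⟩ : ∃ Z' : ℍ[ℝ], (f z : ℍ[ℝ]) = tw (a * (j * t₀)) (b * (j * t₀)) Z' := by
    refine ⟨tw (-(a * (j * t₀))) (-(b * (j * t₀))) (f z : ℍ[ℝ]), ?_⟩
    rw [tw_tw, add_neg_cancel, add_neg_cancel, tw_zero]
  have hZ'n : ‖Z'‖ = 1 := by rw [← hZn, hZ, norm_tw]
  rw [hZ, dR_tw] at hz1 hz2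
  simp only [mul_one] at hz2
  have key := hR2 (norm_gc (D.one s) (D.orth s) _) (norm_vel D s _) (inner_gc_vel D s _) hN0 hNj
    (j_eq D hj s _) ht0 ht1 hZ'n hz1 hz2
  have h1 : (f z : ℍ[ℝ]) = Gm (D.V s) ((t₀ + t) • omg a b N j) := by
    rw [Gm_dec, hZ, key]
  have h2 : f z = ⟨Gm (D.V s) ((t₀ + t) • omg a b N j), mem_Gm D _ _⟩ := Subtype.ext h1
  unfold Phm
  rw [← h2, Equiv.symm_apply_apply]

lemma fld_cont (s : ℝ) : Continuous (Phm D f s) := by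
  rw [continuous_iff_continuousAt]
  intro τ₀
  rw [ContinuousAt, tendsto_iff_dist_tendsto_zero]
  have hang := tendsto_angle (g := Gm (D.V s)) (continuous_Gm _) (norm_Gm D s) τ₀
  refine squeeze_zero (fun _ => dist_nonneg) (fun τ => ?_) hang
  rw [hf, f_Phm, f_Phm]
  exact dR_le_angle a b _ _

lemma fld_lower (hab : |a| + |b| ≤ 1 / 2) {N j : ℝ} (hN0 : 0 < N) (hNj : N ^ 2 + j ^ 2 = 1)
    (hj : j = N * (b / 2)) (s : ℝ) (hs : s ∈ Icc (0 : ℝ) s₀) (h : x0 ∈ sphere (0 : ℍ[ℝ]) 1) :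
    ∃ C : ℝ, 0 ≤ C ∧ ∀ (r : ℝ) (η : Fin 3 → ℝ), 0 < r → r ≤ 1 → ‖η‖ ≤ r / 6 →
      r + ∑ i, (![N, N * s, -(N * (a * s / b - 1 / 2))] : Fin 3 → ℝ) i * η i - C * r ^ 2 ≤
        dist (f.symm ⟨x0, h⟩) (Phm D f s (r • omg a b N j + η)) := by
  have h1 : j = N * inner ℝ (D.V s) (killing a b x0) := by rw [D.k, hj]
  obtain ⟨C, hC0, hC⟩ := dR_lower hab norm_x0 (D.one s) (D.orth s) hN0 hNj h1
  refine ⟨C, hC0, ?_⟩
  intro r η hr0 hr1 hη
  have hi : ∀ i, |η i| ≤ r / 6 := fun i => (norm_le_pi_norm η i).trans hη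
  have h2 := hC r (η 0) (η 1) (η 2) hr0 hr1 (hi 0) (hi 1) (hi 2)
  rw [hf, f_Phm, Equiv.apply_symm_apply]
  have h3 : Gm (D.V s) (r • omg a b N j + η) = tw (r * (a * j) + η 1) (r * (b * j) + η 2)
      (Real.cos (r * N + η 0) • x0 + Real.sin (r * N + η 0) • D.V s) := by
    simp only [Gm, omg, gc, Pi.add_apply, Pi.smul_apply, smul_eq_mul, Matrix.cons_val_one,
      Matrix.cons_val_zero, Matrix.cons_val]
  rw [h3]
  rw [D.l s hs, D.r s hs] at h2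
  rw [Fin.sum_univ_three]
  simp only [Matrix.cons_val_one, Matrix.cons_val_zero, Matrix.cons_val]
  linarith

end

end R4aux

open R4aux in
/-- R4 from R1 and R2. -/
theorem exists_geoFamily_of {a b : ℝ} (hR1 : StatR1 a b) (hR2 : StatR2 a b)
    (hab : |a| + |b| ≤ 1 / 2) (hirr : Irrational (a / b))
    (R : Type*) [MetricSpace R] (f : R ≃ sphere (0 : ℍ[ℝ]) 1)
    (hf : ∀ x y : R, dist x y = dR a b (f x : ℍ[ℝ]) (f y : ℍ[ℝ])) :
    Nonempty (GeoFamily R) := by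
  have hb : b ≠ 0 := by
    rintro rfl
    rw [div_zero] at hirr
    exact hirr ⟨0, by simp⟩
  have ha : a ≠ 0 := by
    rintro rfl
    rw [zero_div] at hirr
    exact hirr ⟨0, by simp⟩
  obtain ⟨s₀, hs₀, ⟨D⟩⟩ := exists_VFam ha hb
  obtain ⟨N, hN0, hNsq⟩ : ∃ N : ℝ, 0 < N ∧ N ^ 2 * (1 + (b / 2) ^ 2) = 1 := by
    refine ⟨(Real.sqrt (1 + (b / 2) ^ 2))⁻¹, by positivity, ?_⟩
    rw [inv_pow, Real.sq_sqrt (by positivity)]
    field_simp
  obtain ⟨j, hj⟩ : ∃ j : ℝ, j = N * (b / 2) := ⟨_, rfl⟩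
  have hNj : N ^ 2 + j ^ 2 = 1 := by
    rw [hj]; linarith
  have hx0m : x0 ∈ sphere (0 : ℍ[ℝ]) 1 := by
    rw [mem_sphere_zero_iff_norm]; exact norm_x0
  have f1 : ¬ (Icc (0 : ℝ) s₀).Countable := by
    rw [Cardinal.Real.Icc_countable_iff]
    exact not_le.mpr hs₀
  have f2 : ∀ s ∈ Icc (0 : ℝ) s₀, ∑ i, (![N, N * s, -(N * (a * s / b - 1 / 2))] : Fin 3 → ℝ) i *
      omg a b N j i = 1 := by
    intro s hs
    rw [Fin.sum_univ_three]
    simp only [omg, Matrix.cons_val_one, Matrix.cons_val_zero, Matrix.cons_val]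
    have : N * N + N * s * (a * j) + -(N * (a * s / b - 1 / 2)) * (b * j) =
        N ^ 2 + N * (b / 2) * j := by
      field_simp
      ring
    rw [this, ← hj, ← hNj]
    ring
  have f3 : ∀ s ∈ Icc (0 : ℝ) s₀, ∀ s' ∈ Icc (0 : ℝ) s₀, s ≠ s' → ∃ σ : ℝ, σ ≠ 0 ∧
      (![N, N * s, -(N * (a * s / b - 1 / 2))] : Fin 3 → ℝ) -
        ![N, N * s', -(N * (a * s' / b - 1 / 2))] = σ • (![0, b, -a] : Fin 3 → ℝ) := by
    intro s hs s' hs' hne
    refine ⟨N * (s - s') / b, ?_, ?_⟩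
    · exact div_ne_zero (mul_ne_zero hN0.ne' (sub_ne_zero.mpr hne)) hb
    · funext i
      fin_cases i
      · simp
      · simp
        field_simp
      · simp
        field_simp
        ring
  have f4 : ∀ k : Fin 3 → ℤ, ∑ i, (![0, b, -a] : Fin 3 → ℝ) i * k i = 0 → k 1 = 0 := by
    intro k hk
    rw [Fin.sum_univ_three] at hk
    simp only [Matrix.cons_val_one, Matrix.cons_val_zero, Matrix.cons_val] at hk
    by_contra hk1
    by_cases hk2 : k 2 = 0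
    · rw [hk2] at hk
      simp at hk
      rcases hk with h | h
      · exact hb h
      · exact hk1 h
    · apply hirr
      refine ⟨(k 1 : ℚ) / (k 2 : ℚ), ?_⟩
      push_cast
      have hk2' : (k 2 : ℝ) ≠ 0 := by exact_mod_cast hk2
      rw [div_eq_div_iff hk2' hb]
      linarith
  have f5 : omg a b N j 1 ≠ 0 := by
    simp only [omg, Matrix.cons_val_one, Matrix.cons_val_zero]
    exact mul_ne_zero ha (by rw [hj]; exact mul_ne_zero hN0.ne' (div_ne_zero hb (by norm_num)))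
  exact ⟨{
    I := Icc 0 s₀
    I_unc := f1
    x₀ := f.symm ⟨x0, hx0m⟩
    c := fun s t => Phm D f s (t • omg a b N j)
    Φ := Phm D f
    om := omg a b N j
    m := fun s => ![N, N * s, -(N * (a * s / b - 1 / 2))]
    w := ![0, b, -a]
    c_zero := fun s _ => fld_zero D f N j s hx0m
    geo := fun s _ t₀ t h0 h1 => fld_geo D f hf hR1 hN0 hNj hj s t₀ t h0 h1
    uniq := fun s _ t₀ t h0 h1 z h2 h3 => fld_uniq D f hf hR2 hN0 hNj hj s t₀ t h0 h1 z h2 h3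
    Φ_cont := fun s _ => fld_cont D f hf s
    Φ_per := fun s _ η k => fld_per D f s η k
    Φ_c := fun s _ t => rfl
    lower := fun s hs => fld_lower D f hf hab hN0 hNj hj s hs hx0m
    m_om := f2
    m_diff := f3
    w_int := f4
    om_ne := f5 }⟩

variable {a b : ℝ}

/-- R4: the family. -/
theorem exists_geoFamily (hab : |a| + |b| ≤ 1 / 2) (hirr : Irrational (a / b))
    (R : Type*) [MetricSpace R] (f : R ≃ sphere (0 : ℍ[ℝ]) 1)
    (hf : ∀ x y : R, dist x y = dR a b (f x : ℍ[ℝ]) (f y : ℍ[ℝ])) :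
    Nonempty (GeoFamily R) :=
  exists_geoFamily_of
    (fun hx hv hxv _ _ hN hNj hj _ h0 h1 => (dR_geodesic hab hx hv hxv hN hNj hj h0 h1).1)
    (fun hx hv hxv _ _ hN hNj hj _ h0 h1 _ hz hz1 hz2 =>
      dR_unique hab hx hv hxv hN hNj hj h0 h1 hz hz1 hz2) hab hirr R f hf

end Helper99.BQ
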